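import Pool.Agent.Helper70.RC.Goals

/-!
# Project TW, part RC, packet RCREAL
-/

namespace Pool.Agent.Helper49.RC.RCREAL

open Polynomial

universe u

lemma bound {R : Type u} [Field R] [LinearOrder R] [IsStrictOrderedRing R] (x : R)
    (hx : IsAlgebraic ℚ x) : ∃ N : ℕ, x ≤ N := by
  by_contra hcon
  push Not at hcon
  have hint : IsIntegral ℚ x := hx.isIntegral
  set p := minpoly ℚ x with hp
  have hmon : p.Monic := minpoly.monic hint
  have hdeg : 0 < p.natDegree := minpoly.natDegree_pos hint
  obtain ⟨m, hm⟩ : ∃ m, p.natDegree = m + 1 := ⟨p.natDegree - 1, by omega⟩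
  have hroot : aeval x p = 0 := minpoly.aeval ℚ x
  rw [aeval_eq_sum_range, Finset.sum_range_succ, hm] at hroot
  have hlead : p.coeff (m + 1) = 1 := by rw [← hm]; exact hmon
  rw [hlead, one_smul] at hroot
  set B : ℚ := ∑ i ∈ Finset.range (m + 1), |p.coeff i| with hB
  have hx0 : (1 : R) < x := by
    have := hcon 1
    simpa using this
  have hBx : (B : R) < x := by
    have h1 := hcon ⌈B⌉₊
    have h2 : (B : R) ≤ ((⌈B⌉₊ : ℚ) : R) := by
      exact_mod_cast Nat.le_ceil B
    have h3 : ((⌈B⌉₊ : ℚ) : R) = ((⌈B⌉₊ : ℕ) : R) := by push_cast; rfl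
    rw [h3] at h2
    exact lt_of_le_of_lt h2 h1
  have hxpos : (0 : R) < x := lt_trans zero_lt_one hx0
  have h4 : x ^ (m + 1) ≤ (B : R) * x ^ m := by
    have h5 : x ^ (m + 1) = - ∑ i ∈ Finset.range (m + 1), p.coeff i • x ^ i := by
      linear_combination hroot
    rw [h5]
    calc - ∑ i ∈ Finset.range (m + 1), p.coeff i • x ^ i
        ≤ |∑ i ∈ Finset.range (m + 1), p.coeff i • x ^ i| := neg_le_abs _
      _ ≤ ∑ i ∈ Finset.range (m + 1), |p.coeff i • x ^ i| := Finset.abs_sum_le_sum_abs _ _
      _ ≤ ∑ i ∈ Finset.range (m + 1), ((|p.coeff i| : ℚ) : R) * x ^ m := by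
          refine Finset.sum_le_sum (fun i hi => ?_)
          rw [Rat.smul_def, abs_mul, abs_of_pos (pow_pos hxpos i)]
          have h6 : i ≤ m := by
            have := Finset.mem_range.mp hi
            omega
          have h7 : x ^ i ≤ x ^ m := pow_le_pow_right₀ hx0.le h6
          have h8 : |((p.coeff i : ℚ) : R)| = ((|p.coeff i| : ℚ) : R) := by push_cast; rfl
          rw [h8]
          have h9 : (0 : R) ≤ ((|p.coeff i| : ℚ) : R) := by
            rw [← h8]
            exact abs_nonneg _
          exact mul_le_mul_of_nonneg_left h7 h9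
      _ = (B : R) * x ^ m := by
          rw [← Finset.sum_mul, hB]
          push_cast
          rfl
  have h10 : (B : R) * x ^ m < x * x ^ m := mul_lt_mul_of_pos_right hBx (pow_pos hxpos m)
  rw [pow_succ'] at h4
  exact absurd h4 (not_le.mpr h10)

theorem rcreal : Pool.Agent.Helper70.RC.RCREAL.{u} := by
  intro R _ _
  obtain ⟨_, _⟩ := Pool.Agent.Helper70.RC.exists_order R
  letI : LinearOrder (algebraicClosure ℚ R) := Subtype.instLinearOrder _
  haveI : IsStrictOrderedRing (algebraicClosure ℚ R) :=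
    Subfield.toIsStrictOrderedRing (algebraicClosure ℚ R).toSubfield
  haveI : Archimedean (algebraicClosure ℚ R) := by
    rw [archimedean_iff_nat_le]
    intro x
    obtain ⟨N, hN⟩ := bound (x : R) ((mem_algebraicClosure_iff).mp x.2)
    refine ⟨N, ?_⟩
    have : (x : R) ≤ ((N : algebraicClosure ℚ R) : R) := by
      push_cast
      exact hN
    exact this
  exact ⟨(ConditionallyCompleteLinearOrderedField.inducedOrderRingHom (algebraicClosure ℚ R) ℝ).toRingHom⟩

end Pool.Agent.Helper49.RC.RCREAL
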